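import Pool.Agent.K4H81.SP.Graph

/-!
# The counting lemma for closed walks
-/

set_option autoImplicit false

open Finset Matrix

namespace Pool.Agent.K4H81.SP

variable {V : Type*} [Fintype V] [DecidableEq V]

theorem trace_pow {U : Matrix V V ℝ} {l : V → ℝ} (h1 : U * Uᵀ = 1) (h2 : Uᵀ * U = 1) (p : ℕ) :
    ((U * diagonal l * Uᵀ) ^ p).trace = ∑ i, l i ^ p := by
  rw [spec_pow h1 h2, Matrix.mul_assoc, trace_mul_comm, Matrix.mul_assoc, h2, Matrix.mul_one,
    trace_diagonal]

/-- the entries of an orthogonal matrix: rows -/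
theorem row_sum {O : Matrix V V ℝ} (h : O * Oᵀ = 1) (j : V) : ∑ i, O j i ^ 2 = 1 := by
  have h3 := congrFun (congrFun h j) j
  rw [Matrix.mul_apply, Matrix.one_apply_eq] at h3
  rw [← h3]
  refine sum_congr rfl fun x _ => ?_
  rw [transpose_apply]
  ring

theorem col_sum {O : Matrix V V ℝ} (h : Oᵀ * O = 1) (i : V) : ∑ j, O j i ^ 2 = 1 := col_norm h i

/-- multiplication with an orthogonal matrix from the left keeps the norms of the columns -/
theorem left_orth {W M : Matrix V V ℝ} (h1 : W * Wᵀ = 1) (i : V) :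
    ∑ j, (Wᵀ * M) j i ^ 2 = ∑ x, M x i ^ 2 := by
  have h3 : (Wᵀ * M)ᵀ * (Wᵀ * M) = Mᵀ * M := by
    rw [transpose_mul, transpose_transpose, Matrix.mul_assoc, ← Matrix.mul_assoc W, h1,
      Matrix.one_mul]
  have h4 := congrFun (congrFun h3 i) i
  rw [Matrix.mul_apply, Matrix.mul_apply] at h4
  simp only [transpose_apply] at h4
  simp only [pow_two]
  exact h4

/-- a bilinear bound bounds the columns of `E * U` -/
theorem col_bound {E U : Matrix V V ℝ} {δ : ℝ} (h2 : Uᵀ * U = 1)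
    (hE : ∀ f g : V → ℝ, |∑ x, ∑ y, E x y * (f x * g y)| ≤ δ * (nm f * nm g)) (i : V) :
    ∑ x, (E * U) x i ^ 2 ≤ δ ^ 2 := by
  set e : V → ℝ := fun x => (E * U) x i with he
  have h3 := hE e (fun y => U y i)
  have h4 : ∑ x, ∑ y, E x y * (e x * U y i) = ∑ x, e x ^ 2 := by
    refine sum_congr rfl fun x _ => ?_
    have : e x = ∑ y, E x y * U y i := by rw [he]; simp only [Matrix.mul_apply]
    calc ∑ y, E x y * (e x * U y i) = e x * ∑ y, E x y * U y i := by
          rw [mul_sum]; exact sum_congr rfl fun y _ => by ring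
      _ = e x ^ 2 := by rw [← this]; ring
  have h5 : nm (fun y => U y i) = 1 := by rw [nm, col_norm h2, Real.sqrt_one]
  rw [h4, h5, mul_one, ← nm_sq, abs_of_nonneg (sq_nonneg _)] at h3
  rw [← nm_sq]
  have h6 := nm_nonneg e
  rcases h6.eq_or_lt with h7 | h7
  · rw [← h7]; nlinarith [sq_nonneg δ]
  · have h8 : nm e ≤ δ := by nlinarith
    exact pow_le_pow_left₀ h6 h8 2

/-- the weighted distances of the eigenvalues -/
theorem overlap {U W : Matrix V V ℝ} {l m : V → ℝ} {δ : ℝ} (hδ : 0 ≤ δ)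
    (u2 : Uᵀ * U = 1) (w1 : W * Wᵀ = 1) (w2 : Wᵀ * W = 1)
    (hE : ∀ f g : V → ℝ, |∑ x, ∑ y, (U * diagonal l * Uᵀ - W * diagonal m * Wᵀ) x y * (f x * g y)| ≤
      δ * (nm f * nm g)) (i : V) :
    ∑ j, (Wᵀ * U) j i ^ 2 * |l i - m j| ≤ δ := by
  have h3 : ∀ j, (Wᵀ * ((U * diagonal l * Uᵀ - W * diagonal m * Wᵀ) * U)) j i =
      (l i - m j) * (Wᵀ * U) j i := by
    intro j
    have e1 : Wᵀ * ((U * diagonal l * Uᵀ - W * diagonal m * Wᵀ) * U) =
        Wᵀ * U * diagonal l - diagonal m * (Wᵀ * U) := by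
      rw [Matrix.sub_mul, Matrix.mul_sub]
      congr 1
      · rw [Matrix.mul_assoc (U * diagonal l), u2, Matrix.mul_one, Matrix.mul_assoc]
      · rw [Matrix.mul_assoc W, Matrix.mul_assoc W, ← Matrix.mul_assoc Wᵀ W, w2, Matrix.one_mul,
          Matrix.mul_assoc]
    rw [e1, Matrix.sub_apply, mul_diagonal, diagonal_mul]
    ring
  have h4 : ∑ j, ((l i - m j) * (Wᵀ * U) j i) ^ 2 ≤ δ ^ 2 := by
    calc _ = ∑ j, (Wᵀ * ((U * diagonal l * Uᵀ - W * diagonal m * Wᵀ) * U)) j i ^ 2 :=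
          sum_congr rfl fun j _ => by rw [h3]
      _ ≤ δ ^ 2 := by
          rw [left_orth w1]
          exact col_bound u2 hE i
  have h5 : ∑ j, (Wᵀ * U) j i ^ 2 = 1 := by
    rw [left_orth w1]
    exact col_norm u2 i
  have h6 := sum_mul_sq_le_sq_mul_sq univ (fun j => |(Wᵀ * U) j i|)
    (fun j => |(l i - m j) * (Wᵀ * U) j i|)
  simp only [sq_abs] at h6
  rw [h5, one_mul] at h6
  have h7 : ∑ j, (Wᵀ * U) j i ^ 2 * |l i - m j| =
      ∑ j, |(Wᵀ * U) j i| * |(l i - m j) * (Wᵀ * U) j i| := by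
    refine sum_congr rfl fun j _ => ?_
    rw [abs_mul, ← sq_abs ((Wᵀ * U) j i)]
    ring
  rw [h7]
  exact abs_le_of_sq_le_sq' (h6.trans h4) hδ |>.2

/-- **Comparison of the traces of powers.** -/
theorem trace_sub_le {U W : Matrix V V ℝ} {l m : V → ℝ} {δ : ℝ} (hδ : 0 ≤ δ) (u1 : U * Uᵀ = 1)
    (u2 : Uᵀ * U = 1) (w1 : W * Wᵀ = 1) (w2 : Wᵀ * W = 1)
    (hE : ∀ f g : V → ℝ, |∑ x, ∑ y, (U * diagonal l * Uᵀ - W * diagonal m * Wᵀ) x y * (f x * g y)| ≤
      δ * (nm f * nm g)) (p : ℕ) :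
    |((U * diagonal l * Uᵀ) ^ p).trace - ((W * diagonal m * Wᵀ) ^ p).trace| ≤
      p * δ * (∑ i, |l i| ^ (p - 1) + ∑ j, |m j| ^ (p - 1)) := by
  have hE' : ∀ f g : V → ℝ,
      |∑ x, ∑ y, (W * diagonal m * Wᵀ - U * diagonal l * Uᵀ) x y * (f x * g y)| ≤
      δ * (nm f * nm g) := by
    intro f g
    have h := hE f g
    rw [← abs_neg] at h
    convert h using 2
    rw [← sum_neg_distrib]
    refine sum_congr rfl fun x _ => ?_
    rw [← sum_neg_distrib]
    refine sum_congr rfl fun y _ => ?_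
    rw [Matrix.sub_apply, Matrix.sub_apply]
    ring
  have a1 := overlap hδ u2 w1 w2 hE
  have a2 := overlap hδ w2 u1 u2 hE'
  have ht : (Uᵀ * W) = (Wᵀ * U)ᵀ := by rw [transpose_mul, transpose_transpose]
  rw [ht] at a2
  simp only [transpose_apply] at a2
  have b1 : ∀ i, ∑ j, (Wᵀ * U) j i ^ 2 = 1 := fun i => by
    rw [left_orth w1]; exact col_norm u2 i
  have b2 : ∀ j, ∑ i, (Wᵀ * U) j i ^ 2 = 1 := fun j => by
    have := left_orth (W := U) (M := W) u1 j
    rw [ht] at this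
    simp only [transpose_apply] at this
    rw [this]
    exact col_norm w2 j
  rw [trace_pow u1 u2, trace_pow w1 w2]
  have e1 : ∑ i, l i ^ p = ∑ i, ∑ j, (Wᵀ * U) j i ^ 2 * l i ^ p :=
    sum_congr rfl fun i _ => by rw [← sum_mul, b1, one_mul]
  have e2 : ∑ j, m j ^ p = ∑ i, ∑ j, (Wᵀ * U) j i ^ 2 * m j ^ p := by
    rw [sum_comm]
    exact sum_congr rfl fun j _ => by rw [← sum_mul, b2, one_mul]
  rw [e1, e2, ← sum_sub_distrib]
  simp only [← sum_sub_distrib, ← mul_sub]
  have key : ∀ i j, |(Wᵀ * U) j i ^ 2 * (l i ^ p - m j ^ p)| ≤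
      p * (|l i| ^ (p - 1) * ((Wᵀ * U) j i ^ 2 * |l i - m j|)) +
        p * (|m j| ^ (p - 1) * ((Wᵀ * U) j i ^ 2 * |m j - l i|)) := by
    intro i j
    rw [abs_mul, abs_of_nonneg (sq_nonneg _)]
    have c1 := abs_pow_sub_pow_le (l i) (m j) p
    have c2 : max |l i| |m j| ^ (p - 1) ≤ |l i| ^ (p - 1) + |m j| ^ (p - 1) := by
      rcases le_total |l i| |m j| with h | h
      · rw [max_eq_right h]
        have : 0 ≤ |l i| ^ (p - 1) := by positivity
        linarith
      · rw [max_eq_left h]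
        have : 0 ≤ |m j| ^ (p - 1) := by positivity
        linarith
    have c3 : |l i ^ p - m j ^ p| ≤ |l i - m j| * p * (|l i| ^ (p - 1) + |m j| ^ (p - 1)) :=
      c1.trans (mul_le_mul_of_nonneg_left c2 (by positivity))
    refine (mul_le_mul_of_nonneg_left c3 (sq_nonneg _)).trans (le_of_eq ?_)
    rw [abs_sub_comm (m j) (l i)]
    ring
  refine (abs_sum_le_sum_abs _ _).trans ?_
  refine (sum_le_sum fun i _ => (abs_sum_le_sum_abs _ _).trans
    (sum_le_sum fun j _ => key i j)).trans ?_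
  simp only [sum_add_distrib, ← mul_sum]
  rw [sum_comm (f := fun i j => |m j| ^ (p - 1) * ((Wᵀ * U) j i ^ 2 * |m j - l i|))]
  simp only [← mul_sum]
  have d1 : ∑ i, |l i| ^ (p - 1) * ∑ j, (Wᵀ * U) j i ^ 2 * |l i - m j| ≤
      ∑ i, |l i| ^ (p - 1) * δ :=
    sum_le_sum fun i _ => mul_le_mul_of_nonneg_left (a1 i) (by positivity)
  have d2 : ∑ j, |m j| ^ (p - 1) * ∑ i, (Wᵀ * U) j i ^ 2 * |m j - l i| ≤
      ∑ j, |m j| ^ (p - 1) * δ :=
    sum_le_sum fun j _ => mul_le_mul_of_nonneg_left (a2 j) (by positivity)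
  rw [← sum_mul] at d1 d2
  have hp : (0 : ℝ) ≤ p := Nat.cast_nonneg p
  have d3 := mul_le_mul_of_nonneg_left d1 hp
  have d4 := mul_le_mul_of_nonneg_left d2 hp
  nlinarith

/-- the eigenvalues of a compression -/
theorem compression {P U W : Matrix V V ℝ} {l m : V → ℝ} (hP : P * P = P) (hPt : Pᵀ = P)
    (u1 : U * Uᵀ = 1) (u2 : Uᵀ * U = 1) (w1 : W * Wᵀ = 1) (w2 : Wᵀ * W = 1)
    (hB : P * (U * diagonal l * Uᵀ) * P = W * diagonal m * Wᵀ) (p : ℕ) (hp : 1 ≤ p) :
    ∑ j, |m j| ^ p ≤ ∑ i, |l i| ^ p := by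
  have b1 : ∀ i, ∑ j, (Wᵀ * U) j i ^ 2 = 1 := fun i => by
    rw [left_orth w1]; exact col_norm u2 i
  have ht : (Uᵀ * W) = (Wᵀ * U)ᵀ := by rw [transpose_mul, transpose_transpose]
  have b2 : ∀ j, ∑ i, (Wᵀ * U) j i ^ 2 = 1 := fun j => by
    have := left_orth (W := U) (M := W) u1 j
    rw [ht] at this
    simp only [transpose_apply] at this
    rw [this]
    exact col_norm w2 j
  -- `P W diag m = W diag m`
  have c1 : P * W * diagonal m = W * diagonal m := by
    have h3 : P * (W * diagonal m * Wᵀ) = W * diagonal m * Wᵀ := by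
      rw [← hB, ← Matrix.mul_assoc, ← Matrix.mul_assoc, hP]
    calc P * W * diagonal m = P * (W * diagonal m * Wᵀ) * W := by
          simp only [Matrix.mul_assoc]
          rw [w2, Matrix.mul_one]
      _ = W * diagonal m * Wᵀ * W := by rw [h3]
      _ = W * diagonal m := by rw [Matrix.mul_assoc, w2, Matrix.mul_one]
  have c2 : ∀ j, m j ≠ 0 → ∀ x, (P * W) x j = W x j := by
    intro j hj x
    have h3 := congrFun (congrFun c1 x) j
    rw [mul_diagonal, mul_diagonal] at h3
    exact mul_right_cancel₀ hj h3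
  have c3 : ∀ j, m j ≠ 0 → m j = ∑ i, (Wᵀ * U) j i ^ 2 * l i := by
    intro j hj
    have h3 : (Wᵀ * (W * diagonal m * Wᵀ) * W) j j = m j := by
      rw [Matrix.mul_assoc W, ← Matrix.mul_assoc Wᵀ W, w2, Matrix.one_mul, Matrix.mul_assoc, w2,
        Matrix.mul_one, diagonal_apply_eq]
    have h4 : (Wᵀ * (P * (U * diagonal l * Uᵀ) * P) * W) j j =
        (Wᵀ * (U * diagonal l * Uᵀ) * W) j j := by
      have e1 : Wᵀ * (P * (U * diagonal l * Uᵀ) * P) * W =
          (P * W)ᵀ * (U * diagonal l * Uᵀ) * (P * W) := by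
        rw [transpose_mul, hPt]
        simp only [Matrix.mul_assoc]
      rw [e1, Matrix.mul_apply, Matrix.mul_apply]
      refine sum_congr rfl fun x _ => ?_
      rw [c2 j hj x, Matrix.mul_apply, Matrix.mul_apply]
      congr 1
      refine sum_congr rfl fun y _ => ?_
      rw [transpose_apply, transpose_apply, c2 j hj y]
    rw [← hB, h4] at h3
    rw [← h3]
    have e2 : Wᵀ * (U * diagonal l * Uᵀ) * W = (Wᵀ * U) * diagonal l * (Wᵀ * U)ᵀ := by
      rw [transpose_mul, transpose_transpose]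
      simp only [Matrix.mul_assoc]
    rw [e2, Matrix.mul_apply]
    refine sum_congr rfl fun i _ => ?_
    rw [mul_diagonal, transpose_apply]
    ring
  have c4 : ∀ j, |m j| ^ p ≤ ∑ i, (Wᵀ * U) j i ^ 2 * |l i| ^ p := by
    intro j
    by_cases hj : m j = 0
    · rw [hj, abs_zero, zero_pow (by omega)]
      exact sum_nonneg fun i _ => by positivity
    · have h3 : |m j| ≤ ∑ i, (Wᵀ * U) j i ^ 2 * |l i| := by
        conv_lhs => rw [c3 j hj]
        refine (abs_sum_le_sum_abs _ _).trans (sum_le_sum fun i _ => ?_)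
        rw [abs_mul, abs_of_nonneg (sq_nonneg _)]
      refine (pow_le_pow_left₀ (abs_nonneg _) h3 p).trans ?_
      exact Real.pow_arith_mean_le_arith_mean_pow univ (fun i => (Wᵀ * U) j i ^ 2) (fun i => |l i|)
        (fun i _ => sq_nonneg _) (b2 j) (fun i _ => abs_nonneg _) p
  calc ∑ j, |m j| ^ p ≤ ∑ j, ∑ i, (Wᵀ * U) j i ^ 2 * |l i| ^ p := sum_le_sum fun j _ => c4 j
    _ = ∑ i, ∑ j, (Wᵀ * U) j i ^ 2 * |l i| ^ p := sum_comm
    _ = ∑ i, |l i| ^ p := sum_congr rfl fun i _ => by rw [← sum_mul, b1, one_mul]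

/-! ### the matrix of the averages -/

section avg

variable {K : Type*} [DecidableEq K]

/-- the projection onto the functions which are constant on the classes -/
noncomputable def pr (c : V → K) : Matrix V V ℝ := fun x y =>
  if c y = c x then ((univ.filter (fun z => c z = c x)).card : ℝ)⁻¹ else 0

/-- the matrix of the averages of `A` over the pairs of classes -/
noncomputable def blk (c : V → K) (A : Matrix V V ℝ) : Matrix V V ℝ := fun x y =>
  (∑ x' ∈ univ.filter (fun z => c z = c x), ∑ y' ∈ univ.filter (fun z => c z = c y), A x' y') /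
    (((univ.filter (fun z => c z = c x)).card : ℝ) * ((univ.filter (fun z => c z = c y)).card : ℝ))

omit [DecidableEq V] in
theorem pr_mul (c : V → K) (f : V → ℝ) (x : V) : ∑ y, pr c x y * f y = av c f x := by
  rw [av, sum_div, sum_filter]
  refine sum_congr rfl fun y _ => ?_
  rw [pr]
  split_ifs
  · rw [div_eq_inv_mul]
  · rw [zero_mul]

omit [Fintype V] [DecidableEq V] in
theorem pr_transpose [Fintype V] (c : V → K) : (pr c)ᵀ = pr c := by
  ext x y
  rw [transpose_apply, pr, pr]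
  by_cases h : c x = c y
  · rw [if_pos h, if_pos h.symm, h]
  · rw [if_neg h, if_neg (Ne.symm h)]

omit [DecidableEq V] in
theorem av_av (c : V → K) (f : V → ℝ) (x : V) : av c (av c f) x = av c f x := by
  have h : ∀ y, c y = c x → av c f y = av c f x := by
    intro y hy
    rw [av, av, hy]
  have h0 := cls_pos c x
  conv_lhs => rw [av]
  rw [sum_congr rfl fun y hy => h y (mem_filter.1 hy).2, sum_const, nsmul_eq_mul,
    mul_div_cancel_left₀ _ h0.ne']

theorem pr_pr (c : V → K) : pr c * pr c = pr c := by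
  ext x y
  rw [Matrix.mul_apply, pr_mul c (fun z => pr c z y) x]
  have h1 : (fun z => pr c z y) = av c (fun z => if z = y then (1 : ℝ) else 0) := by
    funext z
    rw [← pr_mul]
    simp
  rw [h1, av_av, ← h1]

omit [DecidableEq V] in
theorem blk_eq (c : V → K) (A : Matrix V V ℝ) : blk c A = pr c * A * pr c := by
  ext x y
  have e1 : ∀ x z, (pr c * A) x z = av c (fun w => A w z) x := by
    intro x z
    rw [Matrix.mul_apply, pr_mul c (fun w => A w z) x]
  rw [Matrix.mul_apply]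
  have e2 : ∑ z, (pr c * A) x z * pr c z y = ∑ z, pr c y z * (pr c * A) x z := by
    refine sum_congr rfl fun z _ => ?_
    have : pr c z y = pr c y z := congrFun (congrFun (pr_transpose c) y) z
    rw [this, mul_comm]
  rw [e2, pr_mul c (fun z => (pr c * A) x z) y, av]
  simp only [e1, av]
  rw [blk, ← sum_div, div_div, sum_comm]

omit [DecidableEq V] in
theorem blk_bilin (c : V → K) (A : Matrix V V ℝ) (f g : V → ℝ) :
    ∑ x, ∑ y, blk c A x y * (f x * g y) = ∑ x, ∑ y, A x y * (av c f x * av c g y) := by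
  have e1 : ∀ x, ∑ y, blk c A x y * g y = av c (fun w => ∑ z, A w z * av c g z) x := by
    intro x
    rw [blk_eq, Matrix.mul_assoc]
    simp only [Matrix.mul_apply]
    calc ∑ y, (∑ w, pr c x w * ∑ z, A w z * pr c z y) * g y
        = ∑ w, pr c x w * ∑ z, A w z * ∑ y, pr c z y * g y := by
          simp only [mul_sum, sum_mul]
          rw [sum_comm]
          refine sum_congr rfl fun w _ => ?_
          rw [sum_comm]
          refine sum_congr rfl fun z _ => sum_congr rfl fun y _ => ?_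
          ring
      _ = av c (fun w => ∑ z, A w z * av c g z) x := by
          simp only [pr_mul]
  calc ∑ x, ∑ y, blk c A x y * (f x * g y) = ∑ x, f x * ∑ y, blk c A x y * g y := by
        refine sum_congr rfl fun x _ => ?_
        rw [mul_sum]
        exact sum_congr rfl fun y _ => by ring
    _ = ∑ x, f x * av c (fun w => ∑ z, A w z * av c g z) x := by simp only [e1]
    _ = ∑ x, av c f x * ∑ z, A x z * av c g z := (av_sum c f _).symm
    _ = _ := by
        refine sum_congr rfl fun x _ => ?_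
        rw [mul_sum]
        exact sum_congr rfl fun y _ => by ring

omit [DecidableEq V] in
theorem blk_transpose (c : V → K) {A : Matrix V V ℝ} (hA : Aᵀ = A) : (blk c A)ᵀ = blk c A := by
  rw [blk_eq, transpose_mul, transpose_mul, pr_transpose, hA, Matrix.mul_assoc]

/-- **The counting lemma for closed walks**, abstract form. -/
theorem count_abs (c : V → K) (A : Matrix V V ℝ) (hA : Aᵀ = A) {k : ℕ} {R δ Λ : ℝ} (hδ : 0 ≤ δ)
    (hR : ∀ x, (A ^ (2 * k)) x x ≤ R) (hk : 1 ≤ k) (hΛ0 : 0 ≤ Λ)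
    (hΛ : Fintype.card V * R ≤ Λ ^ (2 * k))
    (hc : ∀ f g : V → ℝ, |∑ x, ∑ y, A x y * (f x * g y - av c f x * av c g y)| ≤
      δ * (nm f * nm g)) (p : ℕ) (hp : 2 * k < p) :
    |(A ^ p).trace - (blk c A ^ p).trace| ≤ 2 * p * δ * Λ ^ (p - 1) := by
  obtain ⟨U, l, u1, u2, hAe⟩ := exists_spec A hA
  obtain ⟨W, m, w1, w2, hBe⟩ := exists_spec (blk c A) (blk_transpose c hA)
  have hR' : ∀ x, ((U * diagonal l * Uᵀ) ^ (2 * k)) x x ≤ R := by rw [← hAe]; exact hR
  obtain ⟨-, hsum⟩ := flat u1 u2 hR'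
  have hE : ∀ f g : V → ℝ,
      |∑ x, ∑ y, (U * diagonal l * Uᵀ - W * diagonal m * Wᵀ) x y * (f x * g y)| ≤
        δ * (nm f * nm g) := by
    intro f g
    rw [← hAe, ← hBe]
    have h1 : ∑ x, ∑ y, (A - blk c A) x y * (f x * g y) =
        ∑ x, ∑ y, A x y * (f x * g y - av c f x * av c g y) := by
      have h2 := blk_bilin c A f g
      calc _ = ∑ x, ∑ y, A x y * (f x * g y) - ∑ x, ∑ y, blk c A x y * (f x * g y) := by
            rw [← sum_sub_distrib]
            refine sum_congr rfl fun x _ => ?_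
            rw [← sum_sub_distrib]
            refine sum_congr rfl fun y _ => ?_
            rw [Matrix.sub_apply]
            ring
        _ = _ := by
            rw [h2, ← sum_sub_distrib]
            refine sum_congr rfl fun x _ => ?_
            rw [← sum_sub_distrib]
            refine sum_congr rfl fun y _ => ?_
            ring
    rw [h1]
    exact hc f g
  have hlnn : ∀ i, 0 ≤ l i ^ (2 * k) := fun i => by rw [pow_mul]; exact pow_nonneg (sq_nonneg _) k
  have habs : ∀ i, |l i| ^ (2 * k) = l i ^ (2 * k) := fun i => by rw [pow_mul, sq_abs, ← pow_mul]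
  have hlΛ : ∀ i, |l i| ≤ Λ := by
    intro i
    have h3 : |l i| ^ (2 * k) ≤ Λ ^ (2 * k) := by
      rw [habs]
      exact ((single_le_sum (fun j _ => hlnn j) (mem_univ i)).trans hsum).trans hΛ
    exact le_of_pow_le_pow_left₀ (by omega) hΛ0 h3
  have h4 : ∑ i, |l i| ^ (p - 1) ≤ Λ ^ (p - 1) := by
    obtain ⟨q, hq⟩ : ∃ q, p - 1 = q + 2 * k := ⟨p - 1 - 2 * k, by omega⟩
    rw [hq, pow_add Λ]
    calc ∑ i, |l i| ^ (q + 2 * k) ≤ ∑ i, Λ ^ q * l i ^ (2 * k) := by
          refine sum_le_sum fun i _ => ?_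
          rw [pow_add, habs]
          exact mul_le_mul_of_nonneg_right (pow_le_pow_left₀ (abs_nonneg _) (hlΛ i) q) (hlnn i)
      _ = Λ ^ q * ∑ i, l i ^ (2 * k) := by rw [mul_sum]
      _ ≤ Λ ^ q * Λ ^ (2 * k) :=
          mul_le_mul_of_nonneg_left (hsum.trans hΛ) (pow_nonneg hΛ0 _)
  have h5 : ∑ j, |m j| ^ (p - 1) ≤ Λ ^ (p - 1) :=
    (compression (pr_pr c) (pr_transpose c) u1 u2 w1 w2
      (by rw [← hAe, ← blk_eq, hBe]) (p - 1) (by omega)).trans h4
  have h6 := trace_sub_le hδ u1 u2 w1 w2 hE p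
  rw [← hAe, ← hBe] at h6
  refine h6.trans ?_
  have h7 : (p : ℝ) * δ * (∑ i, |l i| ^ (p - 1) + ∑ j, |m j| ^ (p - 1)) ≤
      p * δ * (Λ ^ (p - 1) + Λ ^ (p - 1)) :=
    mul_le_mul_of_nonneg_left (add_le_add h4 h5) (mul_nonneg (Nat.cast_nonneg _) hδ)
  refine h7.trans (le_of_eq ?_)
  ring

end avg

universe u

/-- **The regularity lemma with the counting lemma for closed walks.** For all `k`, `C`, `ε` and
`L` there is `K` such that the vertices of every graph of girth greater than `2 k`, of maximum degree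
at most `D` and with at most `C D ^ k` vertices can be coloured with `K` colours such that, with the
matrix `B` of the averages of the adjacency matrix `A` over the pairs of classes, the operator norm
of `A - B` is at most `ε D`, and for all lengths `2 k < p ≤ L` the numbers `tr A ^ p` (closed walks
of length `p`) and `tr B ^ p` differ by at most `ε D ^ p`. -/
theorem regularity_counting {k : ℕ} (hk : 1 ≤ k) {C ε : ℝ} (hC : 0 < C) (hε : 0 < ε) (L : ℕ) :
    ∃ K : ℕ, ∀ (V : Type u) [Fintype V] [DecidableEq V] (G : SimpleGraph V) [DecidableRel G.Adj]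
      (D : ℕ), 1 ≤ D → (∀ (v : V) (p : G.Walk v v), p.IsCycle → 2 * k < p.length) →
      (∀ x, G.degree x ≤ D) → (Fintype.card V : ℝ) ≤ C * (D : ℝ) ^ k →
      ∃ c : V → Fin K,
        (∀ f g : V → ℝ,
          |∑ x, ∑ y, G.adjMatrix ℝ x y * (f x * g y - av c f x * av c g y)| ≤
            ε * D * (nm f * nm g)) ∧
        (∀ f g : V → ℝ,
          |∑ x, ∑ y, (G.adjMatrix ℝ - blk c (G.adjMatrix ℝ)) x y * (f x * g y)| ≤
            ε * D * (nm f * nm g)) ∧
        ∀ p : ℕ, 2 * k < p → p ≤ L →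
          |((G.adjMatrix ℝ) ^ p).trace - (blk c (G.adjMatrix ℝ) ^ p).trace| ≤ ε * (D : ℝ) ^ p := by
  set Λ : ℝ := 1 + C * 4 ^ k with hΛ
  have hA : 0 < C * 4 ^ k := by positivity
  have hΛ1 : 1 ≤ Λ := by linarith
  set δ : ℝ := ε / (2 * (L + 1) * Λ ^ L) with hδ
  have hδ0 : 0 < δ := by positivity
  have hden : (1 : ℝ) ≤ 2 * (L + 1) * Λ ^ L := by
    have h1 : (1 : ℝ) ≤ Λ ^ L := one_le_pow₀ hΛ1
    have h2 : (0 : ℝ) ≤ L := Nat.cast_nonneg L
    nlinarith
  have hδε : δ ≤ ε := by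
    rw [hδ]
    exact div_le_self hε.le hden
  obtain ⟨K, hK⟩ := regularity.{u} hk hC hδ0
  refine ⟨K, fun V _ _ G _ D hD hg hdeg hn => ?_⟩
  obtain ⟨c, hc⟩ := hK V G D hD hg hdeg hn
  have hD1 : (1 : ℝ) ≤ D := by exact_mod_cast hD
  have hD0 : (0 : ℝ) < D := by linarith
  have hreg : ∀ f g : V → ℝ,
      |∑ x, ∑ y, G.adjMatrix ℝ x y * (f x * g y - av c f x * av c g y)| ≤
        ε * D * (nm f * nm g) := fun f g => (hc f g).trans
    (mul_le_mul_of_nonneg_right (mul_le_mul_of_nonneg_right hδε hD0.le)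
      (mul_nonneg (nm_nonneg f) (nm_nonneg g)))
  refine ⟨c, hreg, fun f g => ?_, fun p hp hpL => ?_⟩
  · have h1 : ∑ x, ∑ y, (G.adjMatrix ℝ - blk c (G.adjMatrix ℝ)) x y * (f x * g y) =
        ∑ x, ∑ y, G.adjMatrix ℝ x y * (f x * g y - av c f x * av c g y) := by
      have h2 := blk_bilin c (G.adjMatrix ℝ) f g
      calc _ = ∑ x, ∑ y, G.adjMatrix ℝ x y * (f x * g y) -
            ∑ x, ∑ y, blk c (G.adjMatrix ℝ) x y * (f x * g y) := by
            rw [← sum_sub_distrib]
            refine sum_congr rfl fun x _ => ?_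
            rw [← sum_sub_distrib]
            refine sum_congr rfl fun y _ => ?_
            rw [Matrix.sub_apply]
            ring
        _ = _ := by
            rw [h2, ← sum_sub_distrib]
            refine sum_congr rfl fun x _ => ?_
            rw [← sum_sub_distrib]
            refine sum_congr rfl fun y _ => ?_
            ring
    rw [h1]
    exact hreg f g
  · have key : (Fintype.card V : ℝ) * (4 * D) ^ k ≤ (Λ * D) ^ (2 * k) := by
      calc (Fintype.card V : ℝ) * (4 * D) ^ k ≤ C * (D : ℝ) ^ k * (4 * D) ^ k :=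
            mul_le_mul_of_nonneg_right hn (by positivity)
        _ = C * 4 ^ k * (D : ℝ) ^ (2 * k) := by rw [mul_pow, two_mul, pow_add]; ring
        _ ≤ (Λ * D) ^ (2 * k) := by
            rw [mul_pow]
            refine mul_le_mul_of_nonneg_right ?_ (by positivity)
            have h1 : Λ ^ 1 ≤ Λ ^ (2 * k) := pow_le_pow_right₀ hΛ1 (by omega)
            rw [pow_one] at h1
            linarith
    have h1 := count_abs c (G.adjMatrix ℝ) (SimpleGraph.transpose_adjMatrix (α := ℝ) G) (k := k)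
      (R := (4 * D) ^ k) (δ := δ * D) (Λ := Λ * D) (by positivity) (closed_bound hg hD hdeg) hk
      (by positivity) key hc p hp
    refine h1.trans ?_
    have hpe : (D : ℝ) ^ p = D * (D : ℝ) ^ (p - 1) := by
      rw [← pow_succ', Nat.sub_add_cancel (by omega)]
    have h2 : Λ ^ (p - 1) ≤ Λ ^ L := pow_le_pow_right₀ hΛ1 (by omega)
    have h3 : (p : ℝ) ≤ L + 1 := by
      have : (p : ℝ) ≤ L := by exact_mod_cast hpL
      linarith
    have h4 : 2 * (p : ℝ) * δ * Λ ^ (p - 1) ≤ ε := by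
      calc 2 * (p : ℝ) * δ * Λ ^ (p - 1) ≤ 2 * (L + 1) * δ * Λ ^ L := by gcongr
        _ = δ * (2 * (L + 1) * Λ ^ L) := by ring
        _ = ε := by rw [hδ, div_mul_cancel₀ _ (by linarith)]
    calc 2 * (p : ℝ) * (δ * D) * (Λ * D) ^ (p - 1)
        = (2 * (p : ℝ) * δ * Λ ^ (p - 1)) * (D * (D : ℝ) ^ (p - 1)) := by rw [mul_pow]; ring
      _ ≤ ε * (D * (D : ℝ) ^ (p - 1)) := mul_le_mul_of_nonneg_right h4 (by positivity)
      _ = ε * (D : ℝ) ^ p := by rw [hpe]

end Pool.Agent.K4H81.SP
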