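import Pool.Agent.K4H81.SP.Spec

/-!
# A regularity lemma in operator norm
-/

set_option autoImplicit false

open Finset Matrix

namespace Pool.Agent.K4H81.SP

variable {V : Type*} [Fintype V] [DecidableEq V]

/-- few large eigenvalues, with flat eigenvectors -/
theorem flat {U : Matrix V V ℝ} {l : V → ℝ} (h1 : U * Uᵀ = 1) (h2 : Uᵀ * U = 1) {k : ℕ} {R : ℝ}
    (hR : ∀ x, ((U * diagonal l * Uᵀ) ^ (2 * k)) x x ≤ R) :
    (∀ x i, U x i ^ 2 * l i ^ (2 * k) ≤ R) ∧ ∑ i, l i ^ (2 * k) ≤ Fintype.card V * R := by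
  have hd : ∀ x, ∑ i, U x i ^ 2 * l i ^ (2 * k) ≤ R := by
    intro x
    have := hR x
    rwa [spec_pow h1 h2, spec_diag] at this
  have hnn : ∀ x i, 0 ≤ U x i ^ 2 * l i ^ (2 * k) := fun x i =>
    mul_nonneg (sq_nonneg _) (by rw [pow_mul]; exact pow_nonneg (sq_nonneg _) k)
  refine ⟨fun x i => (single_le_sum (fun j _ => hnn x j) (mem_univ i)).trans (hd x), ?_⟩
  calc ∑ i, l i ^ (2 * k) = ∑ i, (∑ x, U x i ^ 2) * l i ^ (2 * k) :=
        sum_congr rfl fun i _ => by rw [col_norm h2, one_mul]
    _ = ∑ x, ∑ i, U x i ^ 2 * l i ^ (2 * k) := by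
        simp only [sum_mul]
        rw [sum_comm]
    _ ≤ ∑ _x : V, R := sum_le_sum fun x _ => hd x
    _ = _ := by rw [sum_const, nsmul_eq_mul, card_univ]

/-- **the abstract regularity lemma** -/
theorem reg_abs (A : Matrix V V ℝ) (hA : Aᵀ = A) {k : ℕ} {R t : ℝ} (ht : 0 < t)
    (hR : ∀ x, (A ^ (2 * k)) x x ≤ R) {m : ℕ} (hm : Fintype.card V * R ≤ m * t ^ (2 * k))
    {Λ : ℝ} (hΛ0 : 0 ≤ Λ) (hk : 1 ≤ k) (hΛ : Fintype.card V * R ≤ Λ ^ (2 * k)) {β : ℝ}
    (hβ0 : 0 ≤ β) (hβ : Fintype.card V * R ≤ β ^ 2 * t ^ (2 * k)) {η : ℝ} (hη : 0 < η) {W : ℕ}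
    (hW : 2 * β / η + 2 ≤ W) :
    ∃ c : V → Fin (W ^ m), ∀ f g : V → ℝ,
      |∑ x, ∑ y, A x y * (f x * g y - av c f x * av c g y)| ≤
        (2 * t + 2 * m * Λ * η) * (nm f * nm g) := by
  classical
  obtain ⟨U, l, h1, h2, rfl⟩ := exists_spec A hA
  obtain ⟨hfl, hsum⟩ := flat h1 h2 hR
  have hlnn : ∀ i, 0 ≤ l i ^ (2 * k) := fun i => by rw [pow_mul]; exact pow_nonneg (sq_nonneg _) k
  set n : ℝ := (Fintype.card V : ℝ) with hn
  have hn0 : 0 ≤ n := Nat.cast_nonneg _
  set I : Finset V := univ.filter (fun i => t ≤ |l i|) with hI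
  have htl : ∀ i ∈ I, t ^ (2 * k) ≤ l i ^ (2 * k) := by
    intro i hi
    rw [hI, mem_filter] at hi
    have := pow_le_pow_left₀ ht.le hi.2 (2 * k)
    rwa [pow_mul |l i|, sq_abs, ← pow_mul] at this
  have hIm : I.card ≤ m := by
    have h3 : (I.card : ℝ) * t ^ (2 * k) ≤ m * t ^ (2 * k) := by
      calc (I.card : ℝ) * t ^ (2 * k) = ∑ _i ∈ I, t ^ (2 * k) := by rw [sum_const, nsmul_eq_mul]
        _ ≤ ∑ i ∈ I, l i ^ (2 * k) := sum_le_sum htl
        _ ≤ ∑ i, l i ^ (2 * k) := sum_le_univ_sum_of_nonneg hlnn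
        _ ≤ n * R := hsum
        _ ≤ _ := hm
    exact_mod_cast le_of_mul_le_mul_right h3 (by positivity)
  have hlΛ : ∀ i, |l i| ≤ Λ := by
    intro i
    have h3 : |l i| ^ (2 * k) ≤ Λ ^ (2 * k) := by
      rw [pow_mul |l i|, sq_abs, ← pow_mul]
      exact ((single_le_sum (fun j _ => hlnn j) (mem_univ i)).trans hsum).trans hΛ
    exact le_of_pow_le_pow_left₀ (by omega) hΛ0 h3
  have hUβ : ∀ i ∈ I, ∀ x, |Real.sqrt n * U x i| ≤ β := by
    intro i hi x
    refine abs_le_of_sq_le_sq ?_ hβ0
    rw [mul_pow, Real.sq_sqrt hn0]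
    have h3 : n * U x i ^ 2 * t ^ (2 * k) ≤ β ^ 2 * t ^ (2 * k) := by
      calc n * U x i ^ 2 * t ^ (2 * k) ≤ n * U x i ^ 2 * l i ^ (2 * k) :=
            mul_le_mul_of_nonneg_left (htl i hi) (mul_nonneg hn0 (sq_nonneg _))
        _ = n * (U x i ^ 2 * l i ^ (2 * k)) := by ring
        _ ≤ n * R := mul_le_mul_of_nonneg_left (hfl x i) hn0
        _ ≤ _ := hβ
    exact le_of_mul_le_mul_right h3 (by positivity)
  have hW0 : 0 < W := by
    have : (0 : ℝ) < W := lt_of_lt_of_le (by positivity) hW
    exact_mod_cast this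
  -- the code of a vertex
  have hfloor : ∀ i ∈ I, ∀ x, ⌊(Real.sqrt n * U x i + β) / η⌋₊ < W := by
    intro i hi x
    have h3 := abs_le.1 (hUβ i hi x)
    have h4 : 0 ≤ (Real.sqrt n * U x i + β) / η := div_nonneg (by linarith [h3.1]) hη.le
    rw [Nat.floor_lt h4]
    have h5 : (Real.sqrt n * U x i + β) / η ≤ 2 * β / η :=
      div_le_div_of_nonneg_right (by linarith [h3.2]) hη.le
    linarith
  let code : V → (I → Fin W) := fun x i => ⟨⌊(Real.sqrt n * U x i + β) / η⌋₊, hfloor i i.2 x⟩
  have hcard : Fintype.card (I → Fin W) ≤ Fintype.card (Fin (W ^ m)) := by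
    rw [Fintype.card_fin, Fintype.card_fun, Fintype.card_fin, Fintype.card_coe]
    exact Nat.pow_le_pow_right hW0 hIm
  obtain ⟨e⟩ := Function.Embedding.nonempty_of_card_le hcard
  refine ⟨fun x => e (code x), fun f g => ?_⟩
  set c : V → Fin (W ^ m) := fun x => e (code x) with hc
  -- the distance of an eigenvector to the average
  have hclose : ∀ i ∈ I, nm (fun x => U x i - av c (fun y => U y i) x) ≤ η := by
    intro i hi
    have hpt : ∀ x, |Real.sqrt n * (U x i - av c (fun y => U y i) x)| ≤ η := by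
      intro x
      have h5 : ∀ y, c y = c x → |Real.sqrt n * U x i - Real.sqrt n * U y i| ≤ η := by
        intro y hyx
        have h6 : code y = code x := e.injective hyx
        have h7 := congrFun h6 ⟨i, hi⟩
        have h8 : ⌊(Real.sqrt n * U y i + β) / η⌋₊ = ⌊(Real.sqrt n * U x i + β) / η⌋₊ :=
          congrArg Fin.val h7
        have hx3 := abs_le.1 (hUβ i hi x)
        have hy3 := abs_le.1 (hUβ i hi y)
        have hx4 : 0 ≤ (Real.sqrt n * U x i + β) / η := div_nonneg (by linarith [hx3.1]) hη.le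
        have hy4 : 0 ≤ (Real.sqrt n * U y i + β) / η := div_nonneg (by linarith [hy3.1]) hη.le
        have a1 := Nat.floor_le hx4
        have a2 := Nat.lt_floor_add_one ((Real.sqrt n * U x i + β) / η)
        have a3 := Nat.floor_le hy4
        have a4 := Nat.lt_floor_add_one ((Real.sqrt n * U y i + β) / η)
        rw [h8] at a3 a4
        have a5 : |(Real.sqrt n * U x i + β) / η - (Real.sqrt n * U y i + β) / η| ≤ 1 := by
          rw [abs_le]; constructor <;> linarith
        rw [← sub_div, abs_div, abs_of_pos hη, div_le_iff₀ hη, one_mul] at a5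
        rwa [show Real.sqrt n * U x i + β - (Real.sqrt n * U y i + β) =
          Real.sqrt n * U x i - Real.sqrt n * U y i by ring] at a5
      have h9 := sub_av_le c (fun y => Real.sqrt n * U y i) x h5
      have h10 : av c (fun y => Real.sqrt n * U y i) x = Real.sqrt n * av c (fun y => U y i) x := by
        rw [av, av, ← mul_sum, mul_div_assoc]
      rw [h10, ← mul_sub] at h9
      exact h9
    have hsq : ∑ x, (U x i - av c (fun y => U y i) x) ^ 2 ≤ η ^ 2 := by
      rcases isEmpty_or_nonempty V with hV | hV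
      · simp only [univ_eq_empty, sum_empty]; positivity
      have hnpos : 0 < n := by rw [hn]; exact_mod_cast Fintype.card_pos
      have h11 : ∀ x, (U x i - av c (fun y => U y i) x) ^ 2 ≤ η ^ 2 / n := by
        intro x
        rw [le_div_iff₀ hnpos]
        have := sq_le_sq' (by linarith [neg_abs_le (Real.sqrt n * (U x i - av c (fun y => U y i) x)), hpt x])
          ((le_abs_self _).trans (hpt x))
        rw [mul_pow, Real.sq_sqrt hn0] at this
        linarith
      refine (sum_le_sum fun x _ => h11 x).trans ?_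
      rw [sum_const, nsmul_eq_mul, card_univ, ← hn, mul_div_cancel₀ _ hnpos.ne']
    exact Real.sqrt_le_iff.2 ⟨hη.le, hsq⟩
  have hcoav : ∀ i (f : V → ℝ), co U i f - co U i (av c f) =
      ∑ x, (U x i - av c (fun y => U y i) x) * f x := by
    intro i f
    have h12 : co U i (av c f) = ∑ x, av c (fun y => U y i) x * f x := by
      rw [co, av_sum]
    rw [h12, co, ← sum_sub_distrib]
    exact sum_congr rfl fun x _ => by ring
  have hdiff : ∀ i ∈ I, ∀ f : V → ℝ, |co U i f - co U i (av c f)| ≤ η * nm f := by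
    intro i hi f
    rw [hcoav]
    exact (abs_inner_le _ _).trans (mul_le_mul_of_nonneg_right (hclose i hi) (nm_nonneg f))
  -- the sum
  have hF : ∑ x, ∑ y, (U * diagonal l * Uᵀ) x y * (f x * g y - av c f x * av c g y) =
      ∑ i, l i * (co U i f * co U i g - co U i (av c f) * co U i (av c g)) := by
    have e1 := co_bilin (U := U) (l := l) f g
    have e2 := co_bilin (U := U) (l := l) (av c f) (av c g)
    calc _ = ∑ x, ∑ y, ((U * diagonal l * Uᵀ) x y * (f x * g y) -
          (U * diagonal l * Uᵀ) x y * (av c f x * av c g y)) :=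
          sum_congr rfl fun x _ => sum_congr rfl fun y _ => by ring
      _ = ∑ i, l i * (co U i f * co U i g) - ∑ i, l i * (co U i (av c f) * co U i (av c g)) := by
          rw [← e1, ← e2, ← sum_sub_distrib]
          exact sum_congr rfl fun x _ => sum_sub_distrib _ _
      _ = _ := by
          rw [← sum_sub_distrib]
          exact sum_congr rfl fun i _ => by ring
  rw [hF]
  have hN0 : 0 ≤ nm f * nm g := mul_nonneg (nm_nonneg f) (nm_nonneg g)
  refine (abs_sum_le_sum_abs _ _).trans ?_
  have hterm : ∀ i, |l i * (co U i f * co U i g - co U i (av c f) * co U i (av c g))| ≤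
      (if i ∈ I then 2 * Λ * η * (nm f * nm g) else 0) +
        (t * (|co U i f| * |co U i g|) + t * (|co U i (av c f)| * |co U i (av c g)|)) := by
    intro i
    have hp1 : 0 ≤ t * (|co U i f| * |co U i g|) := by positivity
    have hp2 : 0 ≤ t * (|co U i (av c f)| * |co U i (av c g)|) := by positivity
    by_cases hi : i ∈ I
    · rw [if_pos hi, abs_mul]
      have b1 : |co U i f * co U i g - co U i (av c f) * co U i (av c g)| ≤
          2 * η * (nm f * nm g) := by
        have e3 : co U i f * co U i g - co U i (av c f) * co U i (av c g) =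
          (co U i f - co U i (av c f)) * co U i g +
            co U i (av c f) * (co U i g - co U i (av c g)) := by ring
        rw [e3]
        refine (abs_add_le _ _).trans ?_
        rw [abs_mul, abs_mul]
        have b2 := mul_le_mul (hdiff i hi f) (co_le h2 i g) (abs_nonneg _)
          (mul_nonneg hη.le (nm_nonneg f))
        have b3 := mul_le_mul ((co_le h2 i (av c f)).trans (nm_av c f)) (hdiff i hi g)
          (abs_nonneg _) (nm_nonneg f)
        linarith
      have b4 := mul_le_mul (hlΛ i) b1 (abs_nonneg _) hΛ0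
      linarith
    · rw [if_neg hi, zero_add, abs_mul]
      have b5 : |l i| ≤ t := by
        rw [hI, mem_filter, not_and] at hi
        exact (not_le.1 (hi (mem_univ i))).le
      have b6 : |co U i f * co U i g - co U i (av c f) * co U i (av c g)| ≤
          |co U i f| * |co U i g| + |co U i (av c f)| * |co U i (av c g)| := by
        refine (abs_sub _ _).trans ?_
        rw [abs_mul, abs_mul]
      have b7 := mul_le_mul b5 b6 (abs_nonneg _) ht.le
      linarith
  refine (sum_le_sum fun i _ => hterm i).trans ?_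
  rw [sum_add_distrib, sum_add_distrib, ← sum_filter, sum_const, nsmul_eq_mul, ← mul_sum, ← mul_sum]
  have c1 : ∑ i, |co U i f| * |co U i g| ≤ nm f * nm g := by
    have := sum_abs_le (fun i => co U i f) (fun i => co U i g)
    rwa [nm_co h1, nm_co h1] at this
  have c2 : ∑ i, |co U i (av c f)| * |co U i (av c g)| ≤ nm f * nm g := by
    have := sum_abs_le (fun i => co U i (av c f)) (fun i => co U i (av c g))
    rw [nm_co h1, nm_co h1] at this
    exact this.trans (mul_le_mul (nm_av c f) (nm_av c g) (nm_nonneg _) (nm_nonneg f))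
  have c3 : ((univ.filter (fun i => i ∈ I)).card : ℝ) * (2 * Λ * η * (nm f * nm g)) ≤
      m * (2 * Λ * η * (nm f * nm g)) := by
    refine mul_le_mul_of_nonneg_right ?_ (by positivity)
    have : univ.filter (fun i => i ∈ I) = I := by ext i; simp
    rw [this]
    exact_mod_cast hIm
  have c4 := mul_le_mul_of_nonneg_left c1 ht.le
  have c5 := mul_le_mul_of_nonneg_left c2 ht.le
  linarith

end Pool.Agent.K4H81.SP
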