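import Pool.Agent.K4H81.SP.Lvl
import Pool.Agent.K4H81.SP.Reg

/-!
# The regularity lemma in operator norm for graphs of girth greater than `2 k`
-/

set_option autoImplicit false

open Finset Matrix

namespace Pool.Agent.K4H81.SP

universe u

/-- The constants. -/
theorem consts {k : ℕ} (hk : 1 ≤ k) {C ε : ℝ} (hC : 0 < C) (hε : 0 < ε) :
    ∃ (m W : ℕ) (Λ β η : ℝ), 0 < Λ ∧ 0 ≤ β ∧ 0 < η ∧ C * 4 ^ k ≤ m * (ε / 4) ^ (2 * k) ∧
      C * 4 ^ k ≤ Λ ^ (2 * k) ∧ C * 4 ^ k ≤ β ^ 2 * (ε / 4) ^ (2 * k) ∧ 2 * β / η + 2 ≤ W ∧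
      2 * (ε / 4) + 2 * m * Λ * η ≤ ε := by
  have hq : 0 < (ε / 4) ^ (2 * k) := by positivity
  have hA : 0 < C * 4 ^ k := by positivity
  obtain ⟨m, hm⟩ := exists_nat_ge (C * 4 ^ k / (ε / 4) ^ (2 * k))
  set Λ : ℝ := 1 + C * 4 ^ k with hΛ
  set β : ℝ := 1 + C * 4 ^ k / (ε / 4) ^ (2 * k) with hβ
  have hβ1 : 1 ≤ β := by rw [hβ]; have : 0 < C * 4 ^ k / (ε / 4) ^ (2 * k) := by positivity
                         linarith
  have hΛ1 : 1 ≤ Λ := by linarith
  set η : ℝ := ε / (4 * (m * Λ + 1)) with hη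
  have hmΛ : 0 < (m : ℝ) * Λ + 1 := by positivity
  have hη0 : 0 < η := by positivity
  obtain ⟨W, hW⟩ := exists_nat_ge (2 * β / η + 2)
  refine ⟨m, W, Λ, β, η, by linarith, by linarith, hη0, ?_, ?_, ?_, hW, ?_⟩
  · rwa [div_le_iff₀ hq] at hm
  · have h1 : Λ ^ 1 ≤ Λ ^ (2 * k) := pow_le_pow_right₀ hΛ1 (by omega)
    rw [pow_one] at h1
    linarith
  · have h2 : β ≤ β ^ 2 := by nlinarith
    have h3 : C * 4 ^ k / (ε / 4) ^ (2 * k) ≤ β ^ 2 := by linarith
    rwa [div_le_iff₀ hq] at h3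
  · have h4 : 2 * m * Λ * η ≤ ε / 2 := by
      rw [hη, mul_div_assoc', div_le_div_iff₀ (by positivity) (by norm_num)]
      nlinarith
    linarith

/-- **The regularity lemma in operator norm at the scale of the girth conjecture.**
For all `k`, `C` and `ε` there is `K` such that the vertices of every graph of girth greater than
`2 k`, of maximum degree at most `D` and with at most `C D ^ k` vertices can be coloured with `K`
colours such that replacing two functions by their averages over the colour classes changes the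
bilinear form of the adjacency matrix by at most `ε D` times the product of the norms. -/
theorem regularity {k : ℕ} (hk : 1 ≤ k) {C ε : ℝ} (hC : 0 < C) (hε : 0 < ε) :
    ∃ K : ℕ, ∀ (V : Type u) [Fintype V] [DecidableEq V] (G : SimpleGraph V) [DecidableRel G.Adj]
      (D : ℕ), 1 ≤ D → (∀ (v : V) (p : G.Walk v v), p.IsCycle → 2 * k < p.length) →
      (∀ x, G.degree x ≤ D) → (Fintype.card V : ℝ) ≤ C * (D : ℝ) ^ k →
      ∃ c : V → Fin K, ∀ f g : V → ℝ,
        |∑ x, ∑ y, G.adjMatrix ℝ x y * (f x * g y - av c f x * av c g y)| ≤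
          ε * D * (nm f * nm g) := by
  obtain ⟨m, W, Λ, β, η, hΛ, hβ, hη, h1, h2, h3, hW, h4⟩ := consts hk hC hε
  refine ⟨W ^ m, fun V _ _ G _ D hD hg hdeg hn => ?_⟩
  have hD0 : (0 : ℝ) < D := by exact_mod_cast hD
  have hDk : 0 < (D : ℝ) ^ k := by positivity
  have key : (Fintype.card V : ℝ) * (4 * D) ^ k ≤ C * 4 ^ k * (D : ℝ) ^ (2 * k) := by
    calc (Fintype.card V : ℝ) * (4 * D) ^ k ≤ C * (D : ℝ) ^ k * (4 * D) ^ k :=
          mul_le_mul_of_nonneg_right hn (by positivity)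
      _ = C * 4 ^ k * (D : ℝ) ^ (2 * k) := by rw [mul_pow, two_mul, pow_add]; ring
  have hD2 : 0 < (D : ℝ) ^ (2 * k) := by positivity
  obtain ⟨c, hc⟩ := reg_abs (G.adjMatrix ℝ) (SimpleGraph.transpose_adjMatrix (α := ℝ) G) (k := k)
    (R := (4 * D) ^ k) (t := ε / 4 * D) (by positivity) (closed_bound hg hD hdeg) (m := m)
    (key.trans (by
      rw [mul_pow, ← mul_assoc]
      exact mul_le_mul_of_nonneg_right h1 hD2.le))
    (Λ := Λ * D) (by positivity) hk
    (key.trans (by rw [mul_pow]; exact mul_le_mul_of_nonneg_right h2 hD2.le))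
    (β := β) hβ
    (key.trans (by
      rw [mul_pow, ← mul_assoc]
      exact mul_le_mul_of_nonneg_right h3 hD2.le))
    hη hW
  refine ⟨c, fun f g => (hc f g).trans ?_⟩
  refine mul_le_mul_of_nonneg_right ?_ (mul_nonneg (nm_nonneg f) (nm_nonneg g))
  calc 2 * (ε / 4 * D) + 2 * m * (Λ * D) * η = (2 * (ε / 4) + 2 * m * Λ * η) * D := by ring
    _ ≤ ε * D := mul_le_mul_of_nonneg_right h4 hD0.le

end Pool.Agent.K4H81.SP
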