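import Pool.Agent.H268R2.LB.NW

/-!
# Walks in a graph without short cycles: levels from a vertex
-/

set_option autoImplicit false

open Finset

namespace Pool.Agent.K4H81.SP

open Pool.Agent.H268R2.LB

variable {V : Type*} {G : SimpleGraph V}

/-- there is a walk with `j` steps from `x` to `y` -/
def rch (G : SimpleGraph V) (x : V) : ℕ → V → Prop
  | 0, y => y = x
  | j + 1, y => ∃ z, rch G x j z ∧ G.Adj z y

/-- `y` has distance `j` from `x` -/
def lvl (G : SimpleGraph V) (x : V) (j : ℕ) (y : V) : Prop :=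
  rch G x j y ∧ ∀ i < j, ¬ rch G x i y

theorem lvl_of_rch {x y : V} {j : ℕ} (h : rch G x j y) : ∃ i ≤ j, lvl G x i y := by
  classical
  have hex : ∃ i, rch G x i y := ⟨j, h⟩
  exact ⟨Nat.find hex, Nat.find_min' hex h, Nat.find_spec hex, fun i hi => Nat.find_min hex hi⟩

theorem lvl_unique {x y : V} {i j : ℕ} (h : lvl G x i y) (h' : lvl G x j y) : i = j := by
  rcases lt_trichotomy i j with hl | hl | hl
  · exact absurd h.1 (h'.2 i hl)
  · exact hl
  · exact absurd h'.1 (h.2 j hl)

theorem lvl_parent {x y : V} {j : ℕ} (h : lvl G x (j + 1) y) : ∃ z, lvl G x j z ∧ G.Adj z y := by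
  obtain ⟨z, hz, hzy⟩ := h.1
  obtain ⟨i, hi, hl⟩ := lvl_of_rch hz
  rcases hi.lt_or_eq with hlt | rfl
  · exact absurd (⟨z, hl.1, hzy⟩ : rch G x (i + 1) y) (h.2 (i + 1) (by omega))
  · exact ⟨z, hl, hzy⟩

/-- the levels of the neighbours -/
theorem lvl_nbr {x y z : V} {j : ℕ} (h : lvl G x j y) (hzy : G.Adj z y) :
    lvl G x (j + 1) z ∨ lvl G x j z ∨ ∃ i, i + 1 = j ∧ lvl G x i z := by
  have h0 : rch G x (j + 1) z := ⟨y, h.1, hzy.symm⟩
  obtain ⟨i, hi, hl⟩ := lvl_of_rch h0
  have h1 : ¬ i + 1 < j := fun hlt => h.2 (i + 1) hlt ⟨z, hl.1, hzy⟩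
  rcases (by omega : i = j + 1 ∨ i = j ∨ i + 1 = j) with rfl | rfl | h2
  · exact Or.inl hl
  · exact Or.inr (Or.inl hl)
  · exact Or.inr (Or.inr ⟨i, h2, hl⟩)

theorem nw_of_lvl {x : V} {j : ℕ} : ∀ {y z : V}, lvl G x (j + 1) y → lvl G x j z → G.Adj z y →
    ∃ b, NW G (j + 1) x b z y := by
  induction j with
  | zero =>
    intro y z _ hz hzy
    have : z = x := hz.1
    subst this
    exact ⟨y, NW.one hzy⟩
  | succ j ih =>
    intro y z hy hz hzy
    obtain ⟨u, hu, huz⟩ := lvl_parent hz
    obtain ⟨b, hb⟩ := ih hz hu huz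
    refine ⟨b, NW.step hb hzy ?_⟩
    rintro rfl
    have := lvl_unique hu hy
    omega

variable {M : ℕ}

theorem parent_unique (hg : ∀ (v : V) (p : G.Walk v v), p.IsCycle → M < p.length)
    {x y z z' : V} {j : ℕ} (hy : lvl G x (j + 1) y) (hz : lvl G x j z) (hz' : lvl G x j z')
    (h : G.Adj z y) (h' : G.Adj z' y) (hM : 2 * (j + 1) ≤ M) : z = z' := by
  by_contra hne
  obtain ⟨b, hb⟩ := nw_of_lvl hy hz h
  obtain ⟨b', hb'⟩ := nw_of_lvl hy hz' h'
  exact no_closed hg (NW.append hb hb'.rev hne) (by omega)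

theorem no_level (hg : ∀ (v : V) (p : G.Walk v v), p.IsCycle → M < p.length)
    {x y z : V} {j : ℕ} (hy : lvl G x j y) (hz : lvl G x j z)
    (h : G.Adj z y) (hM : 2 * j + 1 ≤ M) : False := by
  rcases j with _ | j
  · have h1 : y = x := hy.1
    have h2 : z = x := hz.1
    subst h1
    subst h2
    exact h.ne rfl
  · obtain ⟨u, hu, huy⟩ := lvl_parent hy
    obtain ⟨b, hb⟩ := nw_of_lvl hy hu huy
    obtain ⟨u', hu', huz⟩ := lvl_parent hz
    obtain ⟨b', hb'⟩ := nw_of_lvl hz hu' huz
    have h1 := NW.step hb h.symm (by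
      rintro rfl
      have := lvl_unique hu hz
      omega)
    have h2 := NW.append h1 hb'.rev (by
      rintro rfl
      have := lvl_unique hy hu'
      omega)
    exact no_closed hg h2 (by omega)

variable [Fintype V] [DecidableEq V] [DecidableRel G.Adj]

/-- number of walks with `m` steps from `x` to `y` -/
theorem zero_of_lvl {x : V} : ∀ {m j : ℕ} {y : V}, m < j → lvl G x j y →
    ((G.adjMatrix ℝ) ^ m) x y = 0 := by
  intro m
  induction m with
  | zero =>
    intro j y hj hy
    rw [pow_zero, Matrix.one_apply_ne]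
    rintro rfl
    exact hy.2 0 hj rfl
  | succ m ih =>
    intro j y hj hy
    rw [pow_succ, Matrix.mul_apply]
    refine sum_eq_zero fun z _ => ?_
    by_cases hzy : G.Adj z y
    · rcases lvl_nbr hy hzy with h | h | ⟨i, hi, h⟩
      · rw [ih (by omega) h, zero_mul]
      · rw [ih (by omega) h, zero_mul]
      · rw [ih (by omega) h, zero_mul]
    · rw [SimpleGraph.adjMatrix_apply, if_neg hzy, mul_zero]

theorem pow_nonneg' (m : ℕ) (x y : V) : 0 ≤ ((G.adjMatrix ℝ) ^ m) x y := by
  induction m generalizing y with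
  | zero =>
    rw [pow_zero, Matrix.one_apply]
    split_ifs <;> norm_num
  | succ m ih =>
    rw [pow_succ, Matrix.mul_apply]
    refine sum_nonneg fun z _ => mul_nonneg (ih z) ?_
    rw [SimpleGraph.adjMatrix_apply]
    split_ifs <;> norm_num

theorem walk_bound {k : ℕ} (hg : ∀ (v : V) (p : G.Walk v v), p.IsCycle → 2 * k < p.length)
    {s : ℝ} (hs : 1 ≤ s) (hD : ∀ y, (G.degree y : ℝ) ≤ s ^ 2) {x : V} :
    ∀ {m j : ℕ} {y : V}, m + j ≤ 2 * k → lvl G x j y →
      ((G.adjMatrix ℝ) ^ m) x y * s ^ j ≤ (2 * s) ^ m := by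
  have hs0 : 0 < s := by linarith
  intro m
  induction m with
  | zero =>
    intro j y _ hy
    rcases Nat.eq_zero_or_pos j with rfl | hj
    · rw [pow_zero, pow_zero, pow_zero, mul_one, Matrix.one_apply]
      split_ifs <;> norm_num
    · rw [zero_of_lvl hj hy, zero_mul, pow_zero]
      norm_num
  | succ m ih =>
    intro j y hmj hy
    have hB : 0 ≤ (2 * s) ^ m := by positivity
    rcases Nat.lt_or_ge (m + 1) j with hlt | hge
    · rw [zero_of_lvl hlt hy, zero_mul]
      positivity
    -- the possible parent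
    have key : ∃ p : V, ∀ z, G.Adj z y →
        ((G.adjMatrix ℝ) ^ m) x z * s ^ j ≤
          (if z = p then s * (2 * s) ^ m else 0) + (2 * s) ^ m / s := by
      by_cases hpar : ∃ p i, i + 1 = j ∧ lvl G x i p ∧ G.Adj p y
      · obtain ⟨p, i, rfl, hp, hpy⟩ := hpar
        refine ⟨p, fun z hzy => ?_⟩
        by_cases hzp : z = p
        · subst hzp
          rw [if_pos rfl]
          have h1 := ih (j := i) (y := z) (by omega) hp
          have h2 : ((G.adjMatrix ℝ) ^ m) x z * s ^ (i + 1) =
              s * (((G.adjMatrix ℝ) ^ m) x z * s ^ i) := by ring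
          rw [h2]
          have h3 := mul_le_mul_of_nonneg_left h1 hs0.le
          have : 0 ≤ (2 * s) ^ m / s := by positivity
          linarith
        · rw [if_neg hzp, zero_add]
          rcases lvl_nbr hy hzy with h | h | ⟨i', hi', h⟩
          · have h1 := ih (j := i + 1 + 1) (y := z) (by omega) h
            rw [le_div_iff₀ hs0]
            calc _ = ((G.adjMatrix ℝ) ^ m) x z * s ^ (i + 1 + 1) := by ring
              _ ≤ _ := h1
          · by_cases h2 : 2 * (i + 1) + 1 ≤ 2 * k
            · exact absurd (no_level hg hy h hzy h2) id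
            · rw [zero_of_lvl (by omega) h, zero_mul]
              positivity
          · have : i' = i := by omega
            subst this
            exact absurd (parent_unique hg hy h hp hzy hpy (by omega)) hzp
      · refine ⟨y, fun z hzy => ?_⟩
        rw [if_neg hzy.ne, zero_add]
        rcases lvl_nbr hy hzy with h | h | ⟨i', hi', h⟩
        · have h1 := ih (j := j + 1) (y := z) (by omega) h
          rw [le_div_iff₀ hs0]
          calc _ = ((G.adjMatrix ℝ) ^ m) x z * s ^ (j + 1) := by ring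
            _ ≤ _ := h1
        · by_cases h2 : 2 * j + 1 ≤ 2 * k
          · exact absurd (no_level hg hy h hzy h2) id
          · rw [zero_of_lvl (by omega) h, zero_mul]
            positivity
        · exact absurd ⟨z, i', hi', h, hzy⟩ hpar
    obtain ⟨p, hp⟩ := key
    rw [pow_succ, Matrix.mul_apply, sum_mul]
    have h1 : ∀ z, ((G.adjMatrix ℝ) ^ m) x z * G.adjMatrix ℝ z y * s ^ j ≤
        (if z = p then s * (2 * s) ^ m else 0) + (if G.Adj y z then (2 * s) ^ m / s else 0) := by
      intro z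
      rw [SimpleGraph.adjMatrix_apply]
      by_cases hzy : G.Adj z y
      · rw [if_pos hzy, if_pos hzy.symm, mul_one]
        exact hp z hzy
      · rw [if_neg hzy, if_neg (fun h : G.Adj y z => hzy h.symm), mul_zero, zero_mul, add_zero]
        split_ifs
        · positivity
        · exact le_rfl
    refine (sum_le_sum fun z _ => h1 z).trans ?_
    rw [sum_add_distrib, sum_ite_eq' univ p, if_pos (mem_univ p), ← sum_filter, sum_const,
      nsmul_eq_mul]
    have h2 : ((univ.filter fun z => G.Adj y z).card : ℝ) ≤ s ^ 2 := by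
      have := hD y
      rwa [← SimpleGraph.card_neighborFinset_eq_degree, SimpleGraph.neighborFinset_eq_filter] at this
    have h3 : ((univ.filter fun z => G.Adj y z).card : ℝ) * ((2 * s) ^ m / s) ≤
        s ^ 2 * ((2 * s) ^ m / s) := mul_le_mul_of_nonneg_right h2 (by positivity)
    have h4 : s ^ 2 * ((2 * s) ^ m / s) = s * (2 * s) ^ m := by
      field_simp
    have h5 : (2 * s) ^ (m + 1) = s * (2 * s) ^ m + s * (2 * s) ^ m := by ring
    linarith

/-- **closed walks in a graph of girth greater than `2 k`** -/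
theorem closed_bound {k D : ℕ} (hg : ∀ (v : V) (p : G.Walk v v), p.IsCycle → 2 * k < p.length)
    (hD1 : 1 ≤ D) (hD : ∀ y, G.degree y ≤ D) (x : V) :
    ((G.adjMatrix ℝ) ^ (2 * k)) x x ≤ (4 * D) ^ k := by
  have hD0 : (0 : ℝ) ≤ D := Nat.cast_nonneg _
  have h := walk_bound hg (s := Real.sqrt D) (by
    rw [show (1 : ℝ) = Real.sqrt 1 by simp]
    exact Real.sqrt_le_sqrt (by exact_mod_cast hD1)) (fun y => by
      rw [Real.sq_sqrt hD0]; exact_mod_cast hD y) (x := x) (m := 2 * k) (j := 0) (y := x)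
    (by omega) ⟨rfl, by intro i hi; omega⟩
  have e : (2 * Real.sqrt D) ^ (2 * k) = (4 * D) ^ k := by
    rw [pow_mul, mul_pow, Real.sq_sqrt hD0]
    norm_num
  rw [pow_zero, mul_one, e] at h
  exact h

end Pool.Agent.K4H81.SP
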