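import Mathlib

/-!
# Symmetric matrices with small diagonal entries of a power: a regularity lemma in operator norm
-/

set_option autoImplicit false

open Finset Matrix

namespace Pool.Agent.K4H81.SP

variable {V : Type*} [Fintype V] [DecidableEq V]

theorem exists_spec (A : Matrix V V ℝ) (hA : Aᵀ = A) :
    ∃ (U : Matrix V V ℝ) (l : V → ℝ), U * Uᵀ = 1 ∧ Uᵀ * U = 1 ∧ A = U * diagonal l * Uᵀ := by
  have hH : A.IsHermitian := by
    rw [Matrix.IsHermitian, conjTranspose_eq_transpose_of_trivial]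
    exact hA
  refine ⟨(hH.eigenvectorUnitary : Matrix V V ℝ), hH.eigenvalues, ?_, ?_, ?_⟩
  · have := Unitary.coe_mul_star_self hH.eigenvectorUnitary
    rwa [Unitary.coe_star, star_eq_conjTranspose, conjTranspose_eq_transpose_of_trivial] at this
  · have := Unitary.coe_star_mul_self hH.eigenvectorUnitary
    rwa [star_eq_conjTranspose, conjTranspose_eq_transpose_of_trivial] at this
  · have := hH.spectral_theorem
    rw [Unitary.conjStarAlgAut_apply, star_eq_conjTranspose,
      conjTranspose_eq_transpose_of_trivial] at this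
    exact this

theorem spec_pow {U : Matrix V V ℝ} {l : V → ℝ} (h1 : U * Uᵀ = 1) (h2 : Uᵀ * U = 1) (m : ℕ) :
    (U * diagonal l * Uᵀ) ^ m = U * diagonal (fun i => l i ^ m) * Uᵀ := by
  induction m with
  | zero =>
    rw [pow_zero]
    simp only [pow_zero]
    rw [show (diagonal fun _ : V => (1 : ℝ)) = 1 from diagonal_one, Matrix.mul_one, h1]
  | succ m ih =>
    rw [pow_succ, ih]
    calc U * diagonal (fun i => l i ^ m) * Uᵀ * (U * diagonal l * Uᵀ)
        = U * diagonal (fun i => l i ^ m) * (Uᵀ * U) * diagonal l * Uᵀ := by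
          simp only [Matrix.mul_assoc]
      _ = U * (diagonal (fun i => l i ^ m) * diagonal l) * Uᵀ := by
          rw [h2, Matrix.mul_one, Matrix.mul_assoc U]
      _ = U * diagonal (fun i => l i ^ (m + 1)) * Uᵀ := by
          rw [diagonal_mul_diagonal]
          simp only [pow_succ]

theorem spec_diag {U : Matrix V V ℝ} {l : V → ℝ} (x : V) :
    (U * diagonal l * Uᵀ) x x = ∑ i, U x i ^ 2 * l i := by
  rw [Matrix.mul_apply]
  refine sum_congr rfl fun i _ => ?_
  rw [mul_diagonal, transpose_apply]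
  ring

/-- the coefficient of `f` at the eigenvector `i` -/
def co (U : Matrix V V ℝ) (i : V) (f : V → ℝ) : ℝ := ∑ x, U x i * f x

theorem co_bilin {U : Matrix V V ℝ} {l : V → ℝ} (f g : V → ℝ) :
    ∑ x, ∑ y, (U * diagonal l * Uᵀ) x y * (f x * g y) = ∑ i, l i * (co U i f * co U i g) := by
  have h : ∀ x y, (U * diagonal l * Uᵀ) x y = ∑ i, U x i * l i * U y i := by
    intro x y
    rw [Matrix.mul_apply]
    refine sum_congr rfl fun i _ => ?_
    rw [mul_diagonal, transpose_apply]
  simp only [h, co, sum_mul, mul_sum]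
  rw [sum_congr rfl fun x _ => sum_comm]
  rw [sum_comm]
  refine sum_congr rfl fun i _ => ?_
  rw [sum_comm]
  refine sum_congr rfl fun y _ => sum_congr rfl fun x _ => ?_
  ring

theorem parseval {U : Matrix V V ℝ} (h1 : U * Uᵀ = 1) (f g : V → ℝ) :
    ∑ i, co U i f * co U i g = ∑ x, f x * g x := by
  have h := co_bilin (U := U) (l := fun _ => 1) f g
  have h2 : U * diagonal (fun _ : V => (1 : ℝ)) * Uᵀ = 1 := by
    rw [show (diagonal fun _ : V => (1 : ℝ)) = 1 from diagonal_one, Matrix.mul_one, h1]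
  rw [h2] at h
  simp only [one_mul] at h
  rw [← h]
  refine sum_congr rfl fun x _ => ?_
  rw [sum_eq_single x]
  · rw [Matrix.one_apply_eq, one_mul]
  · intro y _ hy
    rw [Matrix.one_apply_ne (Ne.symm hy), zero_mul]
  · intro h
    exact absurd (mem_univ x) h

/-- the Euclidean norm -/
noncomputable def nm (f : V → ℝ) : ℝ := Real.sqrt (∑ x, f x ^ 2)

omit [DecidableEq V] in
theorem nm_nonneg (f : V → ℝ) : 0 ≤ nm f := Real.sqrt_nonneg _

omit [DecidableEq V] in
theorem nm_sq (f : V → ℝ) : nm f ^ 2 = ∑ x, f x ^ 2 :=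
  Real.sq_sqrt (sum_nonneg fun _ _ => sq_nonneg _)

omit [DecidableEq V] in
theorem abs_inner_le (f g : V → ℝ) : |∑ x, f x * g x| ≤ nm f * nm g := by
  rw [nm, nm, ← Real.sqrt_mul (sum_nonneg fun x _ => sq_nonneg _)]
  refine Real.le_sqrt_of_sq_le ?_
  rw [sq_abs]
  exact sum_mul_sq_le_sq_mul_sq univ f g

omit [DecidableEq V] in
theorem sum_abs_le (f g : V → ℝ) : ∑ x, |f x| * |g x| ≤ nm f * nm g := by
  have h := abs_inner_le (fun x => |f x|) (fun x => |g x|)
  have e1 : nm (fun x => |f x|) = nm f := by simp [nm]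
  have e2 : nm (fun x => |g x|) = nm g := by simp [nm]
  rw [e1, e2] at h
  exact (le_abs_self _).trans h

theorem col_norm {U : Matrix V V ℝ} (h2 : Uᵀ * U = 1) (i : V) : ∑ x, U x i ^ 2 = 1 := by
  have h := congrFun (congrFun h2 i) i
  rw [Matrix.mul_apply, Matrix.one_apply_eq] at h
  rw [← h]
  refine sum_congr rfl fun x _ => ?_
  rw [transpose_apply]
  ring

theorem co_le {U : Matrix V V ℝ} (h2 : Uᵀ * U = 1) (i : V) (f : V → ℝ) : |co U i f| ≤ nm f := by
  have h := abs_inner_le (fun x => U x i) f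
  have e : nm (fun x => U x i) = 1 := by rw [nm, col_norm h2, Real.sqrt_one]
  rw [e, one_mul] at h
  exact h

theorem nm_co {U : Matrix V V ℝ} (h1 : U * Uᵀ = 1) (f : V → ℝ) : nm (fun i => co U i f) = nm f := by
  rw [nm, nm]
  congr 1
  have := parseval h1 f f
  simp only [← pow_two] at this
  exact this

/-! ### averages over the classes of a colouring -/

variable {K : Type*} [DecidableEq K]

/-- the average of `f` over the class of `x` -/
noncomputable def av (c : V → K) (f : V → ℝ) (x : V) : ℝ :=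
  (∑ y ∈ univ.filter (fun y => c y = c x), f y) / ((univ.filter (fun y => c y = c x)).card : ℝ)

omit [DecidableEq V] in
theorem cls_pos (c : V → K) (x : V) : 0 < ((univ.filter (fun y => c y = c x)).card : ℝ) := by
  exact_mod_cast card_pos.2 ⟨x, by simp⟩

omit [DecidableEq V] in
theorem av_sum (c : V → K) (f g : V → ℝ) : ∑ x, av c f x * g x = ∑ x, f x * av c g x := by
  have h : ∀ f g : V → ℝ, ∑ x, av c f x * g x =
      ∑ x, ∑ y, (if c y = c x then f y * g x / ((univ.filter (fun z => c z = c x)).card : ℝ) else 0) := by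
    intro f g
    refine sum_congr rfl fun x _ => ?_
    rw [av, ← sum_filter, div_mul_eq_mul_div, sum_mul, sum_div]
  have e : ∑ x, f x * av c g x = ∑ x, av c g x * f x := sum_congr rfl fun x _ => mul_comm _ _
  rw [e, h f g, h g f, sum_comm]
  refine sum_congr rfl fun x _ => sum_congr rfl fun y _ => ?_
  by_cases hxy : c x = c y
  · rw [if_pos hxy, if_pos hxy.symm, hxy, mul_comm (f x)]
  · rw [if_neg hxy, if_neg (Ne.symm hxy)]

omit [DecidableEq V] in
theorem av_one (c : V → K) (x : V) : av c (fun _ => 1) x = 1 := by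
  rw [av, sum_const, nsmul_eq_mul, mul_one, div_self (cls_pos c x).ne']

omit [DecidableEq V] in
theorem av_sq_le (c : V → K) (f : V → ℝ) (x : V) : av c f x ^ 2 ≤ av c (fun y => f y ^ 2) x := by
  have h0 := cls_pos c x
  rw [av, av, div_pow, div_le_div_iff₀ (by positivity) h0]
  have h := sq_sum_le_card_mul_sum_sq (s := univ.filter (fun y => c y = c x)) (f := f)
  nlinarith [h, h0]

omit [DecidableEq V] in
theorem nm_av (c : V → K) (f : V → ℝ) : nm (av c f) ≤ nm f := by
  refine Real.sqrt_le_sqrt ?_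
  calc ∑ x, av c f x ^ 2 ≤ ∑ x, av c (fun y => f y ^ 2) x * 1 :=
        sum_le_sum fun x _ => by rw [mul_one]; exact av_sq_le c f x
    _ = ∑ x, f x ^ 2 * av c (fun _ => 1) x := av_sum c _ _
    _ = _ := by simp only [av_one, mul_one]

omit [DecidableEq V] in
theorem sub_av_le (c : V → K) (f : V → ℝ) (x : V) {δ : ℝ}
    (h : ∀ y, c y = c x → |f x - f y| ≤ δ) : |f x - av c f x| ≤ δ := by
  have h0 := cls_pos c x
  have e : f x - av c f x =
      (∑ y ∈ univ.filter (fun y => c y = c x), (f x - f y)) /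
        ((univ.filter (fun y => c y = c x)).card : ℝ) := by
    rw [sum_sub_distrib, sum_const, nsmul_eq_mul, sub_div, mul_div_cancel_left₀ _ h0.ne', av]
  rw [e, abs_div, abs_of_pos h0, div_le_iff₀ h0]
  refine (abs_sum_le_sum_abs _ _).trans ?_
  refine (sum_le_sum fun y hy => h y (mem_filter.1 hy).2).trans ?_
  rw [sum_const, nsmul_eq_mul, mul_comm]

end Pool.Agent.K4H81.SP
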